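import Mathlib

/-!
# Flarbs may need `Ω(log n)` amortized pointer changes

A flarb adds a new rightmost node to a binary tree and rearranges an anchored subtree together with
the new node into a rightmost path. We show that for every `n` there is a sequence of `n` flarbs,
starting from the empty tree, with at least `(n + 1) (log₂ (n + 1) - 4) / 4` pointer changes. So the
amortized number of pointer changes per flarb is not bounded; together with the known upper bound
`O(n log n)` the worst case total is `Θ(n log n)`.

Construction. Suppose that `N` flarbs turn the empty tree into the rightmost path with `N` nodes.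
The next flarb, with an anchored subtree that consists of the root only, makes `N - 1` nodes the
left subtree (a rightmost path) of the new node `A`. Now the same `N` flarbs are carried out on the
right of `A`, but each of them also takes `A` and its left child into the anchored subtree, which
costs an additional pointer change. The result is a rightmost path with `2 N + 1` nodes.
-/

set_option autoImplicit false

namespace Pool.Agent.Results.MP_5c307f_lc.LogLowerBound

/-- Binary trees; every node carries a name, which identifies the node. -/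
inductive Tree
  | nil : Tree
  | node (left : Tree) (a : ℕ) (right : Tree) : Tree

namespace Tree

/-- The root, if the tree is not empty. -/
def root : Tree → Option ℕ
  | nil => none
  | node _ a _ => some a

/-- The nodes in symmetric order (in-order). -/
def inorder : Tree → List ℕ
  | nil => []
  | node l a r => inorder l ++ a :: inorder r

/-- The parent/left-child relationships `(p, false, c)` and the parent/right-child relationships
`(p, true, c)` of a tree. -/
def rel : Tree → Finset (ℕ × Bool × ℕ)
  | nil => ∅
  | node l a r => (rel l ∪ rel r) ∪ ((root l).toFinset.image (fun c => (a, false, c)) ∪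
      (root r).toFinset.image (fun c => (a, true, c)))

/-- The nodes of the path that starts at the root and always goes to the right child. -/
def rightPath : Tree → List ℕ
  | nil => []
  | node _ a r => a :: rightPath r

/-- `S` is an anchored subtree of `T`: a set of nodes of `T` that contains the root (if `T` is not
empty) and with every node its parent, that is, a connected set that contains the root. -/
structure Anchored (T : Tree) (S : Finset ℕ) : Prop where
  subset : ∀ v ∈ S, v ∈ T.inorder
  root_mem : ∀ a, T.root = some a → a ∈ S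
  parent_mem : ∀ p s c, (p, s, c) ∈ T.rel → c ∈ S → p ∈ S

/-- `T'` is the flarb of the anchored subtree `S` of `T`, where `r` is the new node: the symmetric
order of `T'` is the one of `T` followed by `r`; the rightmost path of `T'` consists of the nodes of
`S' = S ∪ {r}` (in symmetric order); the children of all the other nodes are the same as in `T`. -/
structure IsFlarb (T : Tree) (S : Finset ℕ) (r : ℕ) (T' : Tree) : Prop where
  anchored : T.Anchored S
  inorder_eq : T'.inorder = T.inorder ++ [r]
  path_eq : T'.rightPath = T.inorder.filter (fun v => v ∈ S) ++ [r]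
  shape : ∀ p, p ∉ S → p ≠ r → ∀ s c, (p, s, c) ∈ T'.rel ↔ (p, s, c) ∈ T.rel

/-- The number of parent/child relationships that change between `T` and `T'`. -/
def changes (T T' : Tree) : ℕ := (symmDiff T.rel T'.rel).card

end Tree

/-- `T 0, T 1, …, T n` is a sequence of `n` flarbs starting from the empty tree; the node created by
the `i`-th flarb (`i = 0, 1, …`) gets the name `i`. -/
def IsFlarbSequence (n : ℕ) (T : ℕ → Tree) : Prop :=
  T 0 = Tree.nil ∧ ∀ i < n, ∃ S : Finset ℕ, (T i).IsFlarb S i (T (i + 1))

/-- The total number of pointer changes of a sequence of `n` flarbs. -/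
def totalCost (n : ℕ) (T : ℕ → Tree) : ℕ := ∑ i ∈ Finset.range n, (T i).changes (T (i + 1))

namespace Tree

/-- A rightmost path with the nodes in `l`, and `U` attached as the right subtree of its end. -/
def att (l : List ℕ) (U : Tree) : Tree := l.foldr (fun a t => node nil a t) U

/-- The number of relationships that are lost. -/
def lost (T T' : Tree) : ℕ := (T.rel \ T'.rel).card

@[simp] lemma att_nil (U : Tree) : att [] U = U := rfl
@[simp] lemma att_cons (a : ℕ) (l : List ℕ) (U : Tree) : att (a :: l) U = node nil a (att l U) := rfl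

lemma att_append (l l' : List ℕ) (U : Tree) : att (l ++ l') U = att l (att l' U) := by
  simp [att, List.foldr_append]

@[simp] lemma inorder_att (l : List ℕ) (U : Tree) : (att l U).inorder = l ++ U.inorder := by
  induction l with
  | nil => rfl
  | cons a l ih => simp [inorder, ih]

@[simp] lemma rightPath_att (l : List ℕ) (U : Tree) :
    (att l U).rightPath = l ++ U.rightPath := by
  induction l with
  | nil => rfl
  | cons a l ih => simp [rightPath, ih]

lemma mem_rel_node (l : Tree) (a : ℕ) (r : Tree) (p : ℕ) (s : Bool) (c : ℕ) :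
    (p, s, c) ∈ (node l a r).rel ↔ (p, s, c) ∈ l.rel ∨ (p, s, c) ∈ r.rel ∨
      (p = a ∧ s = false ∧ l.root = some c) ∨ (p = a ∧ s = true ∧ r.root = some c) := by
  simp only [rel, Finset.mem_union, Finset.mem_image, Option.mem_toFinset, Option.mem_def,
    Prod.mk.injEq]
  constructor
  · rintro ((h | h) | (⟨x, h1, h2, h3, h4⟩ | ⟨x, h1, h2, h3, h4⟩))
    · exact Or.inl h
    · exact Or.inr (Or.inl h)
    · subst h4
      exact Or.inr (Or.inr (Or.inl ⟨h2.symm, h3.symm, h1⟩))
    · subst h4
      exact Or.inr (Or.inr (Or.inr ⟨h2.symm, h3.symm, h1⟩))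
  · rintro (h | h | ⟨h1, h2, h3⟩ | ⟨h1, h2, h3⟩)
    · exact Or.inl (Or.inl h)
    · exact Or.inl (Or.inr h)
    · exact Or.inr (Or.inl ⟨c, h3, h1.symm, h2.symm, rfl⟩)
    · exact Or.inr (Or.inr ⟨c, h3, h1.symm, h2.symm, rfl⟩)

lemma root_mem_inorder (T : Tree) (a : ℕ) (h : T.root = some a) : a ∈ T.inorder := by
  cases T with
  | nil => simp [root] at h
  | node l b r =>
    simp only [root, Option.some.injEq] at h
    subst h
    simp [inorder]

lemma rel_mem (T : Tree) (p : ℕ) (s : Bool) (c : ℕ) (h : (p, s, c) ∈ T.rel) :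
    p ∈ T.inorder ∧ c ∈ T.inorder := by
  induction T with
  | nil => simp [rel] at h
  | node l a r ihl ihr =>
    rw [mem_rel_node] at h
    simp only [inorder, List.mem_append, List.mem_cons]
    rcases h with h | h | ⟨h1, _, h3⟩ | ⟨h1, _, h3⟩
    · exact ⟨Or.inl (ihl h).1, Or.inl (ihl h).2⟩
    · exact ⟨Or.inr (Or.inr (ihr h).1), Or.inr (Or.inr (ihr h).2)⟩
    · exact ⟨Or.inr (Or.inl h1), Or.inl (root_mem_inorder _ _ h3)⟩
    · exact ⟨Or.inr (Or.inl h1), Or.inr (Or.inr (root_mem_inorder _ _ h3))⟩

/-- relationships with a parent off the attached path -/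
lemma mem_rel_att {l : List ℕ} {U : Tree} {p : ℕ} {s : Bool} {c : ℕ} (hp : p ∉ l) :
    (p, s, c) ∈ (att l U).rel ↔ (p, s, c) ∈ U.rel := by
  induction l with
  | nil => rfl
  | cons a l ih =>
    simp only [List.mem_cons, not_or] at hp
    rw [att_cons, mem_rel_node, ih hp.2]
    simp [rel, hp.1]

lemma mem_rel_att' {l : List ℕ} {U : Tree} {p : ℕ} {s : Bool} {c : ℕ}
    (h : (p, s, c) ∈ (att l U).rel) : p ∈ l ∨ (p, s, c) ∈ U.rel := by
  by_cases hp : p ∈ l
  · exact Or.inl hp
  · exact Or.inr ((mem_rel_att hp).1 h)

lemma rel_path_child {a : ℕ} {l : List ℕ} {p : ℕ} {s : Bool} {c : ℕ}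
    (h : (p, s, c) ∈ (att (a :: l) nil).rel) : c ∈ l := by
  induction l generalizing a with
  | nil => simp [rel, root] at h
  | cons b l ih =>
    rw [att_cons, mem_rel_node] at h
    rcases h with h | h | ⟨_, _, h⟩ | ⟨_, _, h⟩
    · simp [rel] at h
    · exact List.mem_cons_of_mem _ (ih h)
    · simp [root] at h
    · simp only [att_cons, root, Option.some.injEq] at h
      simp [h]

/-- the tree with the rightmost path `l, A`, where the left subtree of `A` is the path `cs` and the
right subtree of `A` is `U` -/
def frame (l cs : List ℕ) (A : ℕ) (U : Tree) : Tree := att l (node (att cs nil) A U)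

/-- Lifting a flarb along a rightmost path. -/
lemma lift_path {U U' : Tree} {S : Finset ℕ} {r : ℕ} (l : List ℕ) (h : IsFlarb U S r U')
    (hnd : (l ++ U.inorder ++ [r]).Nodup) :
    IsFlarb (att l U) (l.toFinset ∪ S) r (att l U') ∧
      lost U U' ≤ lost (att l U) (att l U') := by
  rw [List.append_assoc, List.nodup_append'] at hnd
  obtain ⟨hl, hU, hd⟩ := hnd
  have hdU : ∀ x ∈ l, x ∉ U.inorder := fun x hx hx' => hd hx (by simp [hx'])
  have hdU' : ∀ x ∈ U.inorder, x ∉ l := fun x hx hx' => hdU x hx' hx
  refine ⟨⟨⟨?_, ?_, ?_⟩, ?_, ?_, ?_⟩, ?_⟩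
  · intro v hv
    simp only [Finset.mem_union, List.mem_toFinset] at hv
    simp only [inorder_att, List.mem_append]
    exact hv.imp id (h.anchored.subset v)
  · intro a ha
    cases l with
    | nil => simpa using h.anchored.root_mem a (by simpa using ha)
    | cons b l =>
      simp only [att_cons, root, Option.some.injEq] at ha
      simp [ha]
  · intro p s c hp hc
    simp only [Finset.mem_union, List.mem_toFinset] at hc ⊢
    rcases mem_rel_att' hp with h1 | h1
    · exact Or.inl h1
    · refine Or.inr (h.anchored.parent_mem p s c h1 (hc.resolve_left ?_))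
      exact hdU' c (rel_mem U p s c h1).2
  · simp [h.inorder_eq]
  · rw [rightPath_att, h.path_eq, inorder_att, List.filter_append]
    have e1 : l.filter (fun v => decide (v ∈ l.toFinset ∪ S)) = l := by
      rw [List.filter_eq_self]
      intro a ha
      simp [ha]
    have e2 : U.inorder.filter (fun v => decide (v ∈ l.toFinset ∪ S)) =
        U.inorder.filter (fun v => decide (v ∈ S)) := by
      apply List.filter_congr
      intro a ha
      simp [hdU' a ha]
    rw [e1, e2, List.append_assoc]
  · intro p hp hpr s c
    simp only [Finset.mem_union, List.mem_toFinset, not_or] at hp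
    rw [mem_rel_att hp.1, mem_rel_att hp.1]
    exact h.shape p hp.2 hpr s c
  · unfold lost
    apply Finset.card_le_card
    rintro ⟨p, s, c⟩ hx
    rw [Finset.mem_sdiff] at hx ⊢
    have hp := hdU' p (rel_mem U p s c hx.1).1
    rwa [mem_rel_att hp, mem_rel_att hp]

/-- Lifting a flarb to the right of a node `A` with a left subtree, whose root is taken into the
anchored subtree. -/
lemma lift_frame {U U' : Tree} {S : Finset ℕ} {r : ℕ} (l : List ℕ) (c : ℕ) (cs : List ℕ) (A : ℕ)
    (h : IsFlarb U S r U') (hnd : ((frame l (c :: cs) A U).inorder ++ [r]).Nodup) :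
    IsFlarb (frame l (c :: cs) A U) (l.toFinset ∪ ({c, A} ∪ S)) r (frame (l ++ [c]) cs A U') ∧
      lost U U' + 1 ≤ lost (frame l (c :: cs) A U) (frame (l ++ [c]) cs A U') := by
  have hio : (frame l (c :: cs) A U).inorder = l ++ (c :: cs ++ A :: U.inorder) := by
    simp [frame, inorder]
  rw [hio] at hnd
  -- consequences of the distinctness of the names
  have hcl : c ∉ l := by
    intro hc; simp [List.nodup_append', List.disjoint_left] at hnd; exact (hnd.2.2 hc).1 rfl
  have hAl : A ∉ l := by
    intro hc; simp [List.nodup_append', List.disjoint_left] at hnd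
    have := hnd.2.2 hc; tauto
  have hAc : A ≠ c := by
    rintro rfl; simp [List.nodup_append', List.disjoint_left] at hnd
  have hcsl : ∀ x ∈ cs, x ∉ l ∧ x ≠ c ∧ x ≠ A ∧ x ∉ U.inorder ∧ x ≠ r := by
    intro x hx
    simp [List.nodup_append', List.disjoint_left] at hnd
    obtain ⟨_, ⟨⟨h1, h2, h3, h4⟩, h5, h6, h7⟩, h8⟩ := hnd
    refine ⟨fun h => ?_, fun h => ?_, fun h => ?_, fun h => ?_, fun h => ?_⟩
    · have := h8 h; tauto
    · subst h; exact h1 hx
    · subst h; have := h7 hx; tauto
    · have := h7 hx; tauto
    · subst h; have := h7 hx; tauto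
  have hUl : ∀ x ∈ U.inorder, x ∉ l ∧ x ≠ c ∧ x ≠ A ∧ x ∉ cs := by
    intro x hx
    refine ⟨fun h => ?_, fun h => ?_, fun h => ?_, fun h => (hcsl x h).2.2.2.1 hx⟩
    · simp [List.nodup_append', List.disjoint_left] at hnd
      have := hnd.2.2 h; tauto
    · subst h; simp [List.nodup_append', List.disjoint_left] at hnd; tauto
    · subst h; simp [List.nodup_append', List.disjoint_left] at hnd; tauto
  have hrU : r ∉ l ∧ r ≠ c ∧ r ≠ A := by
    simp [List.nodup_append', List.disjoint_left] at hnd
    obtain ⟨_, ⟨⟨h1, h2, h3, h4⟩, h5, h6, h7⟩, h8⟩ := hnd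
    refine ⟨fun h => ?_, fun h => h4 h.symm, fun h => ?_⟩
    · have := h8 h; tauto
    · subst h; tauto
  have hU' : U'.inorder = U.inorder ++ [r] := h.inorder_eq
  have hnot : A ∉ U'.inorder := by
    rw [hU']
    simp only [List.mem_append, List.mem_singleton, not_or]
    exact ⟨fun hA => (hUl A hA).2.2.1 rfl, fun hA => hrU.2.2 hA.symm⟩
  -- relationships of the two frames whose parent is off `l, c, A`
  have key : ∀ p, p ∉ l → p ≠ c → p ≠ A → ∀ s x,
      ((p, s, x) ∈ (frame l (c :: cs) A U).rel ↔ (p, s, x) ∈ (att cs nil).rel ∨ (p, s, x) ∈ U.rel) ∧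
      ((p, s, x) ∈ (frame (l ++ [c]) cs A U').rel ↔
        (p, s, x) ∈ (att cs nil).rel ∨ (p, s, x) ∈ U'.rel) := by
    intro p h1 h2 h3 s x
    constructor
    · rw [frame, mem_rel_att h1, mem_rel_node]
      have : (p, s, x) ∈ (att (c :: cs) nil).rel ↔ (p, s, x) ∈ (att cs nil).rel := by
        have e : att (c :: cs) nil = att [c] (att cs nil) := rfl
        rw [e, mem_rel_att (by simpa using h2)]
      rw [this]
      simp [h3]
    · rw [frame, mem_rel_att (by simp [h1, h2]), mem_rel_node]
      simp [h3]
  refine ⟨⟨⟨?_, ?_, ?_⟩, ?_, ?_, ?_⟩, ?_⟩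
  · intro v hv
    rw [hio]
    simp only [Finset.mem_union, List.mem_toFinset, Finset.mem_insert, Finset.mem_singleton] at hv
    rcases hv with hv | (hv | hv) | hv
    · simp [hv]
    · simp [hv]
    · simp [hv]
    · simp [h.anchored.subset v hv]
  · intro a ha
    cases l with
    | nil =>
      simp only [frame, att_nil, root, Option.some.injEq] at ha
      simp [ha]
    | cons b l =>
      simp only [frame, att_cons, root, Option.some.injEq] at ha
      simp [ha]
  · intro p s x hp hx
    simp only [Finset.mem_union, List.mem_toFinset, Finset.mem_insert, Finset.mem_singleton]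
      at hx ⊢
    by_cases h1 : p ∈ l
    · exact Or.inl h1
    by_cases h2 : p = c
    · exact Or.inr (Or.inl (Or.inl h2))
    by_cases h3 : p = A
    · exact Or.inr (Or.inl (Or.inr h3))
    rcases ((key p h1 h2 h3 s x).1).1 hp with h4 | h4
    · -- inside the path `cs`: impossible
      exfalso
      have h5 := (rel_mem _ _ _ _ h4).2
      simp only [inorder_att, inorder, List.append_nil] at h5
      obtain ⟨g1, g2, g3, g4, g5⟩ := hcsl x h5
      rcases hx with hx | (hx | hx) | hx
      · exact g1 hx
      · exact g2 hx
      · exact g3 hx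
      · exact g4 (h.anchored.subset x hx)
    · have h5 := (rel_mem _ _ _ _ h4).2
      obtain ⟨g1, g2, g3, g4⟩ := hUl x h5
      rcases hx with hx | (hx | hx) | hx
      · exact absurd hx g1
      · exact absurd hx g2
      · exact absurd hx g3
      · exact Or.inr (Or.inr (h.anchored.parent_mem p s x h4 hx))
  · rw [hio]
    simp [frame, inorder, hU']
  · have e0 : (frame (l ++ [c]) cs A U').rightPath = l ++ (c :: A :: U'.rightPath) := by
      simp [frame, rightPath]
    rw [e0, hio, h.path_eq]
    simp only [List.filter_append, List.filter_cons]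
    have e1 : l.filter (fun v => decide (v ∈ l.toFinset ∪ ({c, A} ∪ S))) = l := by
      rw [List.filter_eq_self]
      intro a ha
      simp [ha]
    have e2 : U.inorder.filter (fun v => decide (v ∈ l.toFinset ∪ ({c, A} ∪ S))) =
        U.inorder.filter (fun v => decide (v ∈ S)) := by
      apply List.filter_congr
      intro a ha
      obtain ⟨g1, g2, g3, g4⟩ := hUl a ha
      simp [g1, g2, g3]
    have e3 : cs.filter (fun v => decide (v ∈ l.toFinset ∪ ({c, A} ∪ S))) = [] := by
      rw [List.filter_eq_nil_iff]
      intro a ha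
      obtain ⟨g1, g2, g3, g4, g5⟩ := hcsl a ha
      have g6 : a ∉ S := fun hS => g4 (h.anchored.subset a hS)
      simp [g1, g2, g3, g6]
    rw [e1, e2, e3]
    simp
  · intro p hp hpr s x
    simp only [Finset.mem_union, List.mem_toFinset, Finset.mem_insert, Finset.mem_singleton,
      not_or] at hp
    obtain ⟨h1, ⟨h2, h3⟩, h4⟩ := hp
    rw [(key p h1 h2 h3 s x).1, (key p h1 h2 h3 s x).2, h.shape p h4 hpr s x]
  · -- the relationship `(A, false, c)` is lost, and all the lost relationships of `U`
    have hA1 : (A, false, c) ∈ (frame l (c :: cs) A U).rel := by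
      rw [frame, mem_rel_att hAl, mem_rel_node]
      exact Or.inr (Or.inr (Or.inl ⟨rfl, rfl, rfl⟩))
    have hA2 : (A, false, c) ∉ (frame (l ++ [c]) cs A U').rel := by
      rw [frame, mem_rel_att (by simp [hAl, hAc]), mem_rel_node]
      rintro (h1 | h1 | ⟨_, _, h1⟩ | ⟨_, h1, _⟩)
      · have := (rel_mem _ _ _ _ h1).1
        simp only [inorder_att, inorder, List.append_nil] at this
        exact (hcsl A this).2.2.1 rfl
      · exact hnot (rel_mem _ _ _ _ h1).1
      · have := root_mem_inorder _ _ h1
        simp only [inorder_att, inorder, List.append_nil] at this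
        exact (hcsl c this).2.1 rfl
      · simp at h1
    have hsub : insert (A, false, c) (U.rel \ U'.rel) ⊆
        (frame l (c :: cs) A U).rel \ (frame (l ++ [c]) cs A U').rel := by
      rintro ⟨p, s, x⟩ hx
      rw [Finset.mem_insert] at hx
      rcases hx with hx | hx
      · rw [hx, Finset.mem_sdiff]
        exact ⟨hA1, hA2⟩
      · rw [Finset.mem_sdiff] at hx ⊢
        obtain ⟨g1, g2, g3, g4⟩ := hUl p (rel_mem _ _ _ _ hx.1).1
        rw [(key p g1 g2 g3 s x).1, (key p g1 g2 g3 s x).2]
        refine ⟨Or.inr hx.1, ?_⟩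
        rintro (h1 | h1)
        · have := (rel_mem _ _ _ _ h1).1
          simp only [inorder_att, inorder, List.append_nil] at this
          exact g4 this
        · exact hx.2 h1
    have hnotin : (A, false, c) ∉ U.rel \ U'.rel := by
      intro h1
      rw [Finset.mem_sdiff] at h1
      exact (hUl A (rel_mem _ _ _ _ h1.1).1).2.2.1 rfl
    have := Finset.card_le_card hsub
    rw [Finset.card_insert_of_notMem hnotin] at this
    exact this

/-- The flarb of the root of a rightmost path. -/
lemma adopt (a : ℕ) (as : List ℕ) (r : ℕ) (hnd : (a :: as ++ [r]).Nodup) :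
    IsFlarb (att (a :: as) nil) {a} r (frame [a] as r nil) := by
  have ha : ∀ x ∈ as, x ≠ a := by
    rintro x hx rfl
    simp at hnd
    tauto
  refine ⟨⟨?_, ?_, ?_⟩, ?_, ?_, ?_⟩
  · intro v hv
    simp only [Finset.mem_singleton] at hv
    simp [hv, inorder]
  · intro b hb
    simp only [att_cons, root, Option.some.injEq] at hb
    simp [hb]
  · intro p s c hp hc
    simp only [Finset.mem_singleton] at hc
    exact absurd hc (ha c (rel_path_child hp))
  · simp [frame, inorder]
  · have e1 : as.filter (fun v => decide (v ∈ ({a} : Finset ℕ))) = [] := by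
      rw [List.filter_eq_nil_iff]
      intro x hx
      simp [ha x hx]
    rw [inorder_att]
    simp only [frame, att_cons, att_nil, rightPath, inorder, List.append_nil, List.filter_cons, e1]
    simp
  · intro p hp hpr s c
    simp only [Finset.mem_singleton] at hp
    rw [frame, mem_rel_att (by simpa using hp), mem_rel_node]
    have : (p, s, c) ∈ (att (a :: as) nil).rel ↔ (p, s, c) ∈ (att as nil).rel := by
      have e : att (a :: as) nil = att [a] (att as nil) := rfl
      rw [e, mem_rel_att (by simpa using hp)]
    rw [this]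
    simp [hpr, rel]

/-- The first flarb. -/
lemma first (r : ℕ) : IsFlarb nil ∅ r (node nil r nil) := by
  refine ⟨⟨by simp, by simp [root], by simp⟩, by simp [inorder], by simp [inorder, rightPath], ?_⟩
  intro p _ hpr s c
  rw [mem_rel_node]
  simp [rel, hpr]

/-- `Steps b U m V c`: `m` flarbs with the new nodes `b, b + 1, …` turn `U` into `V`, and at least
`c` relationships are lost. -/
inductive Steps : ℕ → Tree → ℕ → Tree → ℕ → Prop
  | refl (b : ℕ) (U : Tree) : Steps b U 0 U 0
  | step {b : ℕ} {U U' V : Tree} {S : Finset ℕ} {m c₁ c₂ : ℕ} (h : IsFlarb U S b U')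
      (hc : c₁ ≤ lost U U') (hs : Steps (b + 1) U' m V c₂) : Steps b U (m + 1) V (c₁ + c₂)

lemma Steps.trans {b : ℕ} {U V W : Tree} {m m' c c' : ℕ} (h : Steps b U m V c)
    (h' : Steps (b + m) V m' W c') : Steps b U (m + m') W (c + c') := by
  induction h with
  | refl b U => simpa using h'
  | @step b U U' V S m c₁ c₂ h hc hs ih =>
    have e1 : m + 1 + m' = (m + m') + 1 := by omega
    have e3 : c₁ + c₂ + c' = c₁ + (c₂ + c') := by omega
    rw [e1, e3]
    refine Steps.step h hc (ih ?_)
    have e2 : b + 1 + m = b + (m + 1) := by omega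
    rwa [e2]

lemma Steps.lift_path {b : ℕ} {U V : Tree} {m c : ℕ} (h : Steps b U m V c) (l : List ℕ)
    (hnd : (l ++ U.inorder).Nodup) (hlt : ∀ x ∈ l ++ U.inorder, x < b) :
    Steps b (att l U) m (att l V) c := by
  induction h with
  | refl b U => exact Steps.refl _ _
  | @step b U U' V S m c₁ c₂ h hc hs ih =>
    have hnd' : (l ++ U.inorder ++ [b]).Nodup := by
      rw [List.nodup_append']
      refine ⟨hnd, by simp, ?_⟩
      intro x hx hx'
      simp only [List.mem_singleton] at hx'
      have := hlt x hx
      omega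
    have h1 := Tree.lift_path l h hnd'
    refine Steps.step h1.1 (hc.trans h1.2) (ih ?_ ?_)
    · rwa [h.inorder_eq, ← List.append_assoc]
    · intro x hx
      rw [h.inorder_eq, ← List.append_assoc, List.mem_append] at hx
      rcases hx with hx | hx
      · have := hlt x hx
        omega
      · simp only [List.mem_singleton] at hx
        omega

lemma Steps.lift_frame {b : ℕ} {U V : Tree} {m c : ℕ} (h : Steps b U m V c) (l cs : List ℕ)
    (A : ℕ) (hm : cs.length ≤ m) (hnd : (frame l cs A U).inorder.Nodup)
    (hlt : ∀ x ∈ (frame l cs A U).inorder, x < b) :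
    Steps b (frame l cs A U) m (att (l ++ cs ++ [A]) V) (c + cs.length) := by
  induction h generalizing l cs with
  | refl b U =>
    have : cs = [] := by
      rw [← List.length_eq_zero_iff]
      omega
    subst this
    simp only [List.append_nil, List.length_nil, add_zero]
    rw [att_append]
    exact Steps.refl _ _
  | @step b U U' V S m c₁ c₂ h hc hs ih =>
    cases cs with
    | nil =>
      have h2 : Steps b (att (l ++ [A]) U) (m + 1) (att (l ++ [A]) V) (c₁ + c₂) := by
        apply Steps.lift_path (Steps.step h hc hs)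
        · simpa [frame, inorder] using hnd
        · intro x hx
          exact hlt x (by simpa [frame, inorder] using hx)
      rw [att_append] at h2
      simpa [frame] using h2
    | cons d cs =>
      have hnd' : ((frame l (d :: cs) A U).inorder ++ [b]).Nodup := by
        rw [List.nodup_append']
        refine ⟨hnd, by simp, ?_⟩
        intro x hx hx'
        simp only [List.mem_singleton] at hx'
        have := hlt x hx
        omega
      have h1 := Tree.lift_frame l d cs A h hnd'
      have hio : (frame (l ++ [d]) cs A U').inorder = (frame l (d :: cs) A U).inorder ++ [b] :=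
        h1.1.inorder_eq
      have h3 := ih (l ++ [d]) cs (by simp at hm; omega) (by rwa [hio]) (by
        intro x hx
        rw [hio, List.mem_append] at hx
        rcases hx with hx | hx
        · have := hlt x hx
          omega
        · simp only [List.mem_singleton] at hx
          omega)
      have h4 := Steps.step h1.1 ((Nat.add_le_add_right hc 1).trans h1.2) h3
      have e1 : c₁ + 1 + (c₂ + cs.length) = c₁ + c₂ + (d :: cs).length := by
        simp only [List.length_cons]
        omega
      have e2 : l ++ [d] ++ cs ++ [A] = l ++ (d :: cs) ++ [A] := by simp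
      rwa [e1, e2] at h4

/-- The lower bound for the number of lost relationships in the recursive construction. -/
def bound : ℕ → ℕ
  | 0 => 0
  | k + 1 => 2 * bound k + (2 ^ (k + 1) - 2)

/-- The rightmost path with the nodes `b, …, b + m - 1`. -/
def path (b m : ℕ) : Tree := att (List.range' b m) nil

lemma main_steps (k b : ℕ) :
    Steps b nil (2 ^ (k + 1) - 1) (path b (2 ^ (k + 1) - 1)) (bound k) := by
  induction k generalizing b with
  | zero =>
    have h := Steps.step (c₁ := 0) (first b) (Nat.zero_le _) (Steps.refl (b + 1) (node nil b nil))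
    simpa [path, bound] using h
  | succ k ih =>
    obtain ⟨N, hN⟩ : ∃ N, 2 ^ (k + 1) - 1 = N + 1 := by
      refine ⟨2 ^ (k + 1) - 2, ?_⟩
      have : 2 ≤ 2 ^ (k + 1) := by
        rw [pow_succ]
        have := Nat.one_le_two_pow (n := k)
        omega
      omega
    have e0 : 2 ^ (k + 1 + 1) - 1 = (N + 1) + 1 + (N + 1) := by
      rw [pow_succ]
      omega
    have e1 : 2 ^ (k + 1) - 2 = N := by omega
    simp only [bound]
    rw [e0, e1]
    simp only [hN] at ih
    -- the first part
    have h1 := ih b
    -- the adoption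
    have hr : List.range' b (N + 1) = b :: List.range' (b + 1) N := rfl
    have hnd : (List.range' b (N + 1) ++ [b + (N + 1)]).Nodup := by
      have := List.nodup_range' (s := b) (n := N + 1 + 1) (step := 1)
      rwa [List.range'_concat, one_mul] at this
    have h2 : IsFlarb (path b (N + 1)) {b} (b + (N + 1))
        (frame [b] (List.range' (b + 1) N) (b + (N + 1)) nil) := by
      unfold path
      rw [hr]
      apply adopt
      rwa [hr] at hnd
    have h2' := Steps.step (c₁ := 0) h2 (Nat.zero_le _) (Steps.refl _ _)
    -- the second part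
    have h3 := Steps.lift_frame (ih (b + (N + 1) + 1)) [b] (List.range' (b + 1) N) (b + (N + 1))
      (by simp) (by simpa [frame, inorder, hr] using hnd) (by
        intro x hx
        have hx' : x ∈ List.range' b (N + 1) ++ [b + (N + 1)] := by
          simpa [frame, inorder, hr] using hx
        rw [List.mem_append, List.mem_range'_1, List.mem_singleton] at hx'
        omega)
    have h4 := (h1.trans h2').trans h3
    have e2 : bound k + (0 + 0) + (bound k + (List.range' (b + 1) N).length) =
        2 * bound k + N := by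
      simp only [List.length_range']
      omega
    have e3 : att ([b] ++ List.range' (b + 1) N ++ [b + (N + 1)]) (path (b + (N + 1) + 1) (N + 1)) =
        path b ((N + 1) + 1 + (N + 1)) := by
      unfold path
      rw [← att_append]
      congr 1
      have e4 : List.range' b ((N + 1) + 1 + (N + 1)) =
          List.range' b ((N + 1) + 1) ++ List.range' (b + ((N + 1) + 1)) (N + 1) := by
        have := List.range'_append (s := b) (m := (N + 1) + 1) (n := N + 1) (step := 1)
        rw [one_mul] at this
        exact this.symm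
      have e5 : List.range' b ((N + 1) + 1) = List.range' b (N + 1) ++ [b + (N + 1)] := by
        rw [List.range'_concat, one_mul]
      rw [e4, e5, hr]
      rfl
    rw [e2, e3] at h4
    exact h4

lemma extend (b m j : ℕ) : Steps (b + m) (path b m) j (path b (m + j)) 0 := by
  induction j generalizing m with
  | zero => exact Steps.refl _ _
  | succ j ih =>
    have h1 := Steps.lift_path (Steps.step (c₁ := 0) (first (b + m)) (Nat.zero_le _)
      (Steps.refl (b + m + 1) _)) (List.range' b m) (by simpa [inorder] using List.nodup_range') (by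
        intro x hx
        simp only [inorder, List.append_nil, List.mem_range'_1] at hx
        omega)
    have e1 : att (List.range' b m) (node nil (b + m) nil) = path b (m + 1) := by
      unfold path
      rw [List.range'_concat, att_append, one_mul]
      rfl
    rw [e1] at h1
    have h2 := h1.trans (ih (m + 1))
    have e2 : 0 + 1 + j = j + 1 := by omega
    have e3 : m + 1 + j = m + (j + 1) := by omega
    rw [e2, e3] at h2
    exact h2

lemma Steps.exists_fun {b : ℕ} {U V : Tree} {m c : ℕ} (h : Steps b U m V c) :
    ∃ T : ℕ → Tree, T 0 = U ∧ (∀ i < m, ∃ S : Finset ℕ, (T i).IsFlarb S (b + i) (T (i + 1))) ∧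
      c ≤ ∑ i ∈ Finset.range m, (T i).changes (T (i + 1)) := by
  induction h with
  | refl b U => exact ⟨fun _ => U, rfl, by simp, by simp⟩
  | @step b U U' V S m c₁ c₂ h hc hs ih =>
    obtain ⟨T, h0, h1, h2⟩ := ih
    refine ⟨fun i => Nat.casesOn i U T, rfl, ?_, ?_⟩
    · intro i hi
      cases i with
      | zero =>
        refine ⟨S, ?_⟩
        simpa [h0] using h
      | succ i =>
        obtain ⟨S', hS'⟩ := h1 i (by omega)
        refine ⟨S', ?_⟩
        have e : b + (i + 1) = b + 1 + i := by omega
        rw [e]
        exact hS'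
    · rw [Finset.sum_range_succ']
      have h3 : c₁ ≤ U.changes (T 0) := by
        rw [h0]
        refine hc.trans ?_
        unfold lost changes
        apply Finset.card_le_card
        intro x hx
        rw [Finset.mem_symmDiff]
        rw [Finset.mem_sdiff] at hx
        exact Or.inl hx
      have h4 : (∑ i ∈ Finset.range m, changes (Nat.casesOn (i + 1) U T : Tree)
          (Nat.casesOn (i + 1 + 1) U T : Tree)) = ∑ i ∈ Finset.range m, (T i).changes (T (i + 1)) :=
        rfl
      have h5 : changes (Nat.casesOn (0 : ℕ) U T : Tree) (Nat.casesOn (0 + 1 : ℕ) U T : Tree) =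
        U.changes (T 0) := rfl
      rw [h4, h5]
      omega

lemma bound_eq (k : ℕ) : (bound k : ℤ) = ((k : ℤ) - 2) * 2 ^ k + 2 := by
  induction k with
  | zero => simp [bound]
  | succ k ih =>
    have h : (2 : ℕ) ≤ 2 ^ (k + 1) := by
      rw [pow_succ]
      have := Nat.one_le_two_pow (n := k)
      omega
    simp only [bound]
    push_cast [Nat.cast_sub h]
    rw [ih]
    ring

end Tree

/-- The number of pointer changes of `n` flarbs can be at least `(n + 1) (log₂ (n + 1) - 4) / 4`. -/
theorem lower_bound (n : ℕ) : ∃ T : ℕ → Tree, IsFlarbSequence n T ∧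
    ((n : ℝ) + 1) * (Real.logb 2 ((n : ℝ) + 1) - 4) / 4 ≤ totalCost n T := by
  rcases Nat.eq_zero_or_pos n with rfl | hn
  · refine ⟨fun _ => Tree.nil, ⟨rfl, by simp⟩, ?_⟩
    refine le_trans ?_ (Nat.cast_nonneg _)
    norm_num
  -- `2 ^ (k + 1) ≤ n + 1 < 2 ^ (k + 2)`
  obtain ⟨k, hk1, hk2⟩ : ∃ k, 2 ^ (k + 1) ≤ n + 1 ∧ n + 1 < 2 ^ (k + 2) := by
    refine ⟨Nat.log 2 (n + 1) - 1, ?_, ?_⟩
    · have h1 : 1 ≤ Nat.log 2 (n + 1) := Nat.log_pos (by norm_num) (by omega)
      rw [Nat.sub_add_cancel h1]
      exact Nat.pow_log_le_self 2 (by omega)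
    · have h1 : 1 ≤ Nat.log 2 (n + 1) := Nat.log_pos (by norm_num) (by omega)
      have e : Nat.log 2 (n + 1) - 1 + 2 = Nat.log 2 (n + 1) + 1 := by omega
      rw [e]
      exact Nat.lt_pow_succ_log_self (by norm_num) _
  have h1 := Tree.main_steps k 0
  have h2 := Tree.extend 0 (2 ^ (k + 1) - 1) (n - (2 ^ (k + 1) - 1))
  have h3 := h1.trans h2
  have e1 : 2 ^ (k + 1) - 1 + (n - (2 ^ (k + 1) - 1)) = n := by omega
  rw [e1, add_zero] at h3
  obtain ⟨T, h4, h5, h6⟩ := h3.exists_fun
  refine ⟨T, ⟨h4, fun i hi => ?_⟩, ?_⟩
  · obtain ⟨S, hS⟩ := h5 i hi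
    exact ⟨S, by simpa using hS⟩
  · have h7 : ((k : ℝ) - 2) * 2 ^ k + 2 ≤ (totalCost n T : ℝ) := by
      have h8 : (Tree.bound k : ℝ) = ((k : ℝ) - 2) * 2 ^ k + 2 := by
        have := Tree.bound_eq k
        exact_mod_cast this
      rw [← h8]
      exact_mod_cast h6
    refine le_trans ?_ h7
    have hn0 : (0 : ℝ) < (n : ℝ) + 1 := by positivity
    have hlog1 : Real.logb 2 ((n : ℝ) + 1) ≤ (k : ℝ) + 2 := by
      rw [Real.logb_le_iff_le_rpow (by norm_num) hn0]
      have : ((n : ℝ) + 1) ≤ 2 ^ (k + 2) := by exact_mod_cast hk2.le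
      refine this.trans (le_of_eq ?_)
      rw [← Real.rpow_natCast]
      push_cast
      rfl
    have h9 : ((n : ℝ) + 1) ≤ 4 * 2 ^ k := by
      have : ((n : ℝ) + 1) ≤ 2 ^ (k + 2) := by exact_mod_cast hk2.le
      rw [pow_add] at this
      linarith
    rcases le_or_gt (Real.logb 2 ((n : ℝ) + 1)) 4 with hle | hgt
    · -- trivial case
      have h10 : ((n : ℝ) + 1) * (Real.logb 2 ((n : ℝ) + 1) - 4) / 4 ≤ 0 := by
        apply div_nonpos_of_nonpos_of_nonneg _ (by norm_num)
        exact mul_nonpos_of_nonneg_of_nonpos hn0.le (by linarith)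
      refine h10.trans ?_
      have h11 : (0 : ℤ) ≤ ((k : ℤ) - 2) * 2 ^ k + 2 := by
        rw [← Tree.bound_eq]
        positivity
      exact_mod_cast h11
    · have h12 : Real.logb 2 ((n : ℝ) + 1) - 4 ≤ (k : ℝ) - 2 := by linarith
      have h13 : 0 ≤ Real.logb 2 ((n : ℝ) + 1) - 4 := by linarith
      have h14 : ((n : ℝ) + 1) * (Real.logb 2 ((n : ℝ) + 1) - 4) ≤ (4 * 2 ^ k) * ((k : ℝ) - 2) :=
        mul_le_mul h9 h12 h13 (by positivity)
      linarith

/-- **The amortized number of pointer changes of flarbs is not bounded.** (1) For every constant `C`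
there is a sequence of `n` flarbs, starting from the empty tree, with more than `C n` pointer
changes. (2) For every `n` there is a sequence of `n` flarbs with at least
`(n + 1) (log₂ (n + 1) - 4) / 4` pointer changes. -/
theorem result :
    (∀ C : ℝ, ∃ (n : ℕ) (T : ℕ → Tree), IsFlarbSequence n T ∧ C * n < totalCost n T) ∧
    ∀ n : ℕ, ∃ T : ℕ → Tree, IsFlarbSequence n T ∧
      ((n : ℝ) + 1) * (Real.logb 2 ((n : ℝ) + 1) - 4) / 4 ≤ totalCost n T := by
  refine ⟨fun C => ?_, lower_bound⟩
  obtain ⟨m, hm⟩ := exists_nat_gt (4 * |C| + 4)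
  obtain ⟨T, h1, h2⟩ := lower_bound (2 ^ m)
  refine ⟨2 ^ m, T, h1, lt_of_lt_of_le ?_ h2⟩
  have h3 : (m : ℝ) ≤ Real.logb 2 (((2 ^ m : ℕ) : ℝ) + 1) := by
    rw [Real.le_logb_iff_rpow_le (by norm_num) (by positivity), Real.rpow_natCast]
    push_cast
    linarith
  have h4 : (0 : ℝ) < ((2 ^ m : ℕ) : ℝ) := by positivity
  have h5 : |C| ≤ (Real.logb 2 (((2 ^ m : ℕ) : ℝ) + 1) - 4) / 4 := by linarith
  have h6 : C ≤ |C| := le_abs_self C
  have h7 : 0 < (Real.logb 2 (((2 ^ m : ℕ) : ℝ) + 1) - 4) / 4 := by
    have := abs_nonneg C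
    linarith
  calc C * ((2 ^ m : ℕ) : ℝ) ≤ (Real.logb 2 (((2 ^ m : ℕ) : ℝ) + 1) - 4) / 4 * ((2 ^ m : ℕ) : ℝ) :=
        mul_le_mul_of_nonneg_right (h6.trans h5) h4.le
    _ < (Real.logb 2 (((2 ^ m : ℕ) : ℝ) + 1) - 4) / 4 * (((2 ^ m : ℕ) : ℝ) + 1) :=
        mul_lt_mul_of_pos_left (by linarith) h7
    _ = (((2 ^ m : ℕ) : ℝ) + 1) * (Real.logb 2 (((2 ^ m : ℕ) : ℝ) + 1) - 4) / 4 := by ring

end Pool.Agent.Results.MP_5c307f_lc.LogLowerBound
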